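import Pool.Agent.Helper48.RD.Defs

/-!
# The key lemma: violators whose mid directions surround the centre do not exist
-/

set_option linter.unusedVariables false

namespace RD

open Finset

namespace Key

/-- the residue class of `x` mod `2N` meets `[l, s]` -/
def C (N l s x : ℤ) : Prop := ∃ j : ℤ, l ≤ x + 2 * N * j ∧ x + 2 * N * j ≤ s

open Classical in
/-- contribution, written with lifts -/
noncomputable def g (N : ℤ) (c : Fin 3) (l s : ℤ) (k : Fin 3) : Option ℤ → ℤ
  | none => if k = c then -1 else 0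
  | some x => if k = c then (if C N l s (x + N) then -1 else 0) else (if C N l s x then 1 else 0)

theorem C_period {N l s x : ℤ} (k : ℤ) : C N l s (x + 2 * N * k) ↔ C N l s x := by
  constructor
  · rintro ⟨j, h1, h2⟩
    exact ⟨k + j, by nlinarith, by nlinarith⟩
  · rintro ⟨j, h1, h2⟩
    exact ⟨j - k, by nlinarith, by nlinarith⟩

theorem C_NN {N l s x : ℤ} : C N l s (x + N + N) ↔ C N l s x := by
  have := C_period (N := N) (l := l) (s := s) (x := x) 1
  rw [← this]
  ring_nf

theorem C_shift {N l s x : ℤ} (k : ℤ) : C N (l + 2 * N * k) (s + 2 * N * k) x ↔ C N l s x := by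
  constructor
  · rintro ⟨j, h1, h2⟩
    exact ⟨j - k, by nlinarith, by nlinarith⟩
  · rintro ⟨j, h1, h2⟩
    exact ⟨j + k, by nlinarith, by nlinarith⟩

theorem g_shift {N : ℤ} {c : Fin 3} {l s : ℤ} {k : Fin 3} {p : Option ℤ} (j : ℤ) :
    g N c (l + 2 * N * j) (s + 2 * N * j) k p = g N c l s k p := by
  cases p with
  | none => rfl
  | some x =>
    simp only [g]
    split_ifs <;> first | rfl | (exfalso; simp_all [C_shift])

/-- an arc shorter than a half circle contains no antipodal points -/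
theorem C_anti {N l s x : ℤ} (hN : 0 < N) (hs : s < l + N) (h : C N l s x) : ¬ C N l s (x + N) := by
  rintro ⟨j', h1', h2'⟩
  obtain ⟨j, h1, h2⟩ := h
  rcases lt_or_ge j' j with h | h
  · have : j' ≤ j - 1 := by omega
    nlinarith
  · nlinarith

theorem mem_iff {N l s x : ℤ} (hN : 0 < N) (hA : Arc N l s) (h0 : 0 ≤ x) (h1 : x < 2 * N) :
    Mem N l s x ↔ C N l s x := by
  obtain ⟨a1, a2, a3, a4⟩ := hA
  constructor
  · rintro (⟨h, h'⟩ | ⟨h, h'⟩)
    · exact ⟨0, by simpa using h, by simpa using h'⟩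
    · exact ⟨1, by simpa using h, by simpa using h'⟩
  · rintro ⟨j, h, h'⟩
    have hj0 : 0 ≤ j := by
      by_contra hc
      have : j ≤ -1 := by omega
      nlinarith
    have hj1 : j ≤ 1 := by
      by_contra hc
      have : 2 ≤ j := by omega
      nlinarith
    rcases (show j = 0 ∨ j = 1 by omega) with rfl | rfl
    · left; rw [mul_zero, add_zero] at h h'; exact ⟨h, h'⟩
    · right; rw [mul_one] at h h'; exact ⟨h, h'⟩

theorem anti_range {N x : ℤ} (h0 : 0 ≤ x) (h1 : x < 2 * N) : 0 ≤ anti N x ∧ anti N x < 2 * N := by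
  unfold anti
  split_ifs <;> omega

theorem C_anti_iff {N l s x : ℤ} : C N l s (anti N x) ↔ C N l s (x + N) := by
  unfold anti
  split_ifs with h
  · rfl
  · rw [← C_period (N := N) (l := l) (s := s) (x := x - N) 1]
    ring_nf

theorem ctr_eq {N l s : ℤ} (hN : 0 < N) (hA : Arc N l s) (c k : Fin 3) (p : Option ℤ)
    (hp : ∀ x, p = some x → 0 ≤ x ∧ x < 2 * N) : ctr N c l s k p = g N c l s k p := by
  cases p with
  | none => rfl
  | some x =>
    obtain ⟨h0, h1⟩ := hp x rfl
    obtain ⟨h2, h3⟩ := anti_range h0 h1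
    have e1 := mem_iff hN hA h0 h1
    have e2 := (mem_iff hN hA h2 h3).trans C_anti_iff
    simp only [ctr, g]
    by_cases hk : k = c
    · by_cases hm : C N l s (x + N)
      · rw [if_pos hk, if_pos hk, if_pos hm, if_pos (e2.2 hm)]
      · rw [if_pos hk, if_pos hk, if_neg hm, if_neg (fun h => hm (e2.1 h))]
    · by_cases hm : C N l s x
      · rw [if_neg hk, if_neg hk, if_pos hm, if_pos (e1.2 hm)]
      · rw [if_neg hk, if_neg hk, if_neg hm, if_neg (fun h => hm (e1.1 h))]

section Count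

variable {E : Type*} {S : Finset E} {col : E → Fin 3} {r : ℕ}

theorem count (hb : Bal col S r) (F : E → ℤ) (β : Fin 3 → ℤ) (h : ∀ e ∈ S, F e ≤ β (col e)) :
    ∑ e ∈ S, F e ≤ r * (β 0 + β 1 + β 2) := by
  refine (sum_le_sum h).trans ?_
  rw [← Finset.sum_fiberwise S col (fun e => β (col e)), Fin.sum_univ_three]
  have h1 : ∀ c : Fin 3, ∑ e ∈ S with col e = c, β (col e) = r * β c := by
    intro c
    rw [sum_congr rfl (g := fun _ => β c)]
    · rw [sum_const, hb c]
      simp
    · intro e he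
      rw [(mem_filter.1 he).2]
  rw [h1, h1, h1]
  apply le_of_eq
  ring

/-- a violator (lifted arc) -/
def V (N : ℤ) (col : E → Fin 3) (pos : E → Option ℤ) (S : Finset E) (r : ℕ) (c : Fin 3)
    (l s : ℤ) : Prop :=
  l ≤ s ∧ s < l + N ∧ (r : ℤ) + 1 ≤ ∑ e ∈ S, g N c l s (col e) (pos e)

variable {N : ℤ} {pos : E → Option ℤ}

theorem V.shift {c : Fin 3} {l s : ℤ} (h : V N col pos S r c l s) (j : ℤ) :
    V N col pos S r c (l + 2 * N * j) (s + 2 * N * j) := by
  obtain ⟨h1, h2, h3⟩ := h
  refine ⟨by linarith, by linarith, ?_⟩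
  rw [sum_congr rfl (fun e _ => g_shift j)]
  exact h3

theorem sum3 (A B : Fin 3) (h : A ≠ B) (a b c : ℤ) :
    (fun k : Fin 3 => if k = A then a else if k = B then b else c) 0 +
    (fun k : Fin 3 => if k = A then a else if k = B then b else c) 1 +
    (fun k : Fin 3 => if k = A then a else if k = B then b else c) 2 = a + b + c := by
  fin_cases A <;> fin_cases B <;> simp at h ⊢ <;> ring

theorem sum3' (A : Fin 3) (a c : ℤ) :
    (fun k : Fin 3 => if k = A then a else c) 0 +
    (fun k : Fin 3 => if k = A then a else c) 1 +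
    (fun k : Fin 3 => if k = A then a else c) 2 = a + 2 * c := by
  fin_cases A <;> simp <;> ring

/-- two violators of the same type intersect -/
theorem P1 (hb : Bal col S r) {A : Fin 3} {l1 s1 l2 s2 : ℤ} (h1 : V N col pos S r A l1 s1)
    (h2 : V N col pos S r A l2 s2) : ∃ x, C N l1 s1 x ∧ C N l2 s2 x := by
  by_contra hcon
  push Not at hcon
  have hc := count hb (fun e => g N A l1 s1 (col e) (pos e) + g N A l2 s2 (col e) (pos e))
    (fun k => if k = A then 0 else 1) ?_
  · rw [sum3', sum_add_distrib] at hc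
    have := h1.2.2
    have := h2.2.2
    linarith
  · intro e _
    cases pos e with
    | none => simp only [g]; split_ifs <;> norm_num
    | some x =>
      simp only [g]
      by_cases hk : col e = A
      · simp only [hk, if_true]; split_ifs <;> norm_num
      · simp only [hk, if_false]
        have := hcon x
        split_ifs with a b <;> first | (norm_num; done) | (exfalso; exact this a b)

/-- violators of different types: `K2` is not contained in `-K1` and does not contain it -/
theorem P2 (hN : 0 < N) (hb : Bal col S r) {A B : Fin 3} (hAB : A ≠ B) {l1 s1 l2 s2 : ℤ}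
    (h1 : V N col pos S r A l1 s1) (h2 : V N col pos S r B l2 s2) :
    (¬ ∀ x, C N l1 s1 (x + N) → C N l2 s2 x) ∧ ¬ ∀ x, C N l2 s2 x → C N l1 s1 (x + N) := by
  constructor
  · intro hcon
    have hcon' : ∀ x, C N l1 s1 x → C N l2 s2 (x + N) := by
      intro x hx
      apply hcon
      rwa [C_NN]
    have hdisj : ∀ x, C N l1 s1 x → ¬ C N l2 s2 x := by
      intro x hx hx'
      exact C_anti hN h2.2.1 hx' (hcon' x hx)
    have hc := count hb (fun e => g N A l1 s1 (col e) (pos e) + g N B l2 s2 (col e) (pos e))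
      (fun k => if k = A then 1 else if k = B then 0 else 1) ?_
    · rw [sum3 A B hAB, sum_add_distrib] at hc
      have := h1.2.2
      have := h2.2.2
      linarith
    · intro e _
      cases pos e with
      | none => simp only [g]; split_ifs <;> norm_num
      | some x =>
        simp only [g]
        have d := hdisj x
        have c' := hcon' x
        by_cases hk : col e = A
        · simp only [hk, hAB, if_true, if_false]; split_ifs <;> norm_num
        · by_cases hk' : col e = B
          · simp only [hk', hAB.symm, if_true, if_false]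
            split_ifs with a b <;> first | (norm_num; done) | (exfalso; tauto)
          · simp only [hk, hk', if_false]
            split_ifs with a b <;> first | (norm_num; done) | (exfalso; tauto)
  · intro hcon
    have hdisj : ∀ x, C N l1 s1 x → ¬ C N l2 s2 x := by
      intro x hx hx'
      exact C_anti hN h1.2.1 hx (hcon x hx')
    have hc := count hb (fun e => g N A l1 s1 (col e) (pos e) + g N B l2 s2 (col e) (pos e))
      (fun k => if k = A then 0 else if k = B then 1 else 1) ?_
    · rw [sum3 A B hAB, sum_add_distrib] at hc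
      have := h1.2.2
      have := h2.2.2
      linarith
    · intro e _
      cases pos e with
      | none => simp only [g]; split_ifs <;> norm_num
      | some x =>
        simp only [g]
        have d := hdisj x
        have c' := hcon x
        by_cases hk : col e = A
        · simp only [hk, hAB, if_true, if_false]
          split_ifs with a b <;> first | (norm_num; done) | (exfalso; tauto)
        · by_cases hk' : col e = B
          · simp only [hk', hAB.symm, if_true, if_false]
            split_ifs with a b <;> first | (norm_num; done) | (exfalso; tauto)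
          · simp only [hk, hk', if_false]
            split_ifs with a b <;> first | (norm_num; done) | (exfalso; tauto)

/-- non-nestedness, in lifts: `[l1,s1]` of type `A`, `[l2 - N, s2 - N]` with `[l2,s2]` of type `B` -/
theorem nonnest (hN : 0 < N) (hb : Bal col S r) {A B : Fin 3} (hAB : A ≠ B) {l1 s1 l2 s2 : ℤ}
    (h1 : V N col pos S r A l1 s1) (h2 : V N col pos S r B l2 s2) :
    ¬ (l1 ≤ l2 - N ∧ s2 - N ≤ s1) ∧ ¬ (l2 - N ≤ l1 ∧ s1 ≤ s2 - N) := by
  obtain ⟨p1, p2⟩ := P2 hN hb hAB.symm h2 h1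
  constructor
  · rintro ⟨a, b⟩
    apply p1
    rintro x ⟨j, hj1, hj2⟩
    exact ⟨j, by linarith, by linarith⟩
  · rintro ⟨a, b⟩
    apply p2
    rintro x ⟨j, hj1, hj2⟩
    exact ⟨j, by linarith, by linarith⟩

end Count

section Angle

variable {N : ℤ} {ang : ℤ → ℝ}

theorem ang_shift (hang : ∀ k, ang (k + N) = ang k + Real.pi) (k j : ℤ) :
    ang (k + 2 * N * j) = ang k + 2 * Real.pi * j := by
  have h2 : ∀ k, ang (k + 2 * N) = ang k + 2 * Real.pi := by
    intro k
    rw [show k + 2 * N = k + N + N by ring, hang, hang]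
    ring
  induction j using Int.induction_on with
  | zero => simp
  | succ i ih =>
    rw [show k + 2 * N * ((i : ℤ) + 1) = (k + 2 * N * i) + 2 * N by ring, h2, ih]
    push_cast
    ring
  | pred i ih =>
    have := h2 (k + 2 * N * (-(i : ℤ) - 1))
    rw [show k + 2 * N * (-(i : ℤ) - 1) + 2 * N = k + 2 * N * (-(i : ℤ)) by ring, ih] at this
    push_cast at this ⊢
    linarith

/-- the mid angle -/
noncomputable def mid (ang : ℤ → ℝ) (l s : ℤ) : ℝ := (ang l + ang s) / 2

theorem mid_shift (hang : ∀ k, ang (k + N) = ang k + Real.pi) (l s j : ℤ) :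
    mid ang (l + 2 * N * j) (s + 2 * N * j) = mid ang l s + 2 * Real.pi * j := by
  unfold mid
  rw [ang_shift hang, ang_shift hang]
  ring

theorem mid_sub (hang : ∀ k, ang (k + N) = ang k + Real.pi) (l s : ℤ) :
    mid ang (l - N) (s - N) = mid ang l s - Real.pi := by
  unfold mid
  have h1 := hang (l - N)
  have h2 := hang (s - N)
  rw [sub_add_cancel] at h1 h2
  rw [h1, h2]
  ring

theorem near_mid (hmono : StrictMono ang) (hang : ∀ k, ang (k + N) = ang k + Real.pi)
    {l s x : ℤ} (h1 : l ≤ x) (h2 : x ≤ s) (h3 : s < l + N) :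
    mid ang l s - Real.pi / 2 < ang x ∧ ang x < mid ang l s + Real.pi / 2 := by
  have a1 := hmono.monotone h1
  have a2 := hmono.monotone h2
  have a3 := hmono h3
  rw [hang] at a3
  unfold mid
  constructor <;> linarith

theorem L1 (hmono : StrictMono ang) (hang : ∀ k, ang (k + N) = ang k + Real.pi)
    {l s l' s' x k : ℤ} (h3 : s < l + N) (h3' : s' < l' + N)
    (hm : mid ang l s ≤ mid ang l' s') (hm' : mid ang l' s' ≤ mid ang l s + Real.pi)
    (h1 : l ≤ x) (h2 : x ≤ s) (h1' : l' ≤ x + 2 * N * k) (h2' : x + 2 * N * k ≤ s') : k = 0 := by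
  obtain ⟨a1, a2⟩ := near_mid hmono hang h1 h2 h3
  obtain ⟨b1, b2⟩ := near_mid hmono hang h1' h2' h3'
  rw [ang_shift hang] at b1 b2
  have hpi := Real.pi_pos
  rcases lt_trichotomy k 0 with h | h | h
  · exfalso
    have : (k : ℝ) ≤ -1 := by exact_mod_cast (show k ≤ -1 by omega)
    nlinarith
  · exact h
  · exfalso
    have : (1 : ℝ) ≤ k := by exact_mod_cast (show 1 ≤ k by omega)
    nlinarith

/-- the three lifted arcs have surrounding mid directions -/
structure Sur (ang : ℤ → ℝ) (l1 s1 l2 s2 l3 s3 : ℤ) : Prop where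
  m12 : mid ang l1 s1 ≤ mid ang l2 s2
  m23 : mid ang l2 s2 ≤ mid ang l3 s3
  m31 : mid ang l3 s3 ≤ mid ang l1 s1 + 2 * Real.pi
  g12 : mid ang l2 s2 ≤ mid ang l1 s1 + Real.pi
  g23 : mid ang l3 s3 ≤ mid ang l2 s2 + Real.pi
  g31 : mid ang l1 s1 + 2 * Real.pi ≤ mid ang l3 s3 + Real.pi

theorem Sur.rot (hang : ∀ k, ang (k + N) = ang k + Real.pi) {l1 s1 l2 s2 l3 s3 : ℤ}
    (h : Sur ang l1 s1 l2 s2 l3 s3) :
    Sur ang l2 s2 l3 s3 (l1 + 2 * N * 1) (s1 + 2 * N * 1) := by
  have e : mid ang (l1 + 2 * N * 1) (s1 + 2 * N * 1) = mid ang l1 s1 + 2 * Real.pi := by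
    rw [mid_shift hang]; push_cast; ring
  refine ⟨h.m23, ?_, ?_, h.g23, ?_, ?_⟩ <;> rw [e]
  · exact h.m31
  · linarith [h.m12]
  · exact h.g31
  · linarith [h.g12]

variable {E : Type*} {S : Finset E} {col : E → Fin 3} {r : ℕ} {pos : E → Option ℤ}

/-- no common point -/
theorem no_common (hmono : StrictMono ang) (hang : ∀ k, ang (k + N) = ang k + Real.pi)
    {l1 s1 l2 s2 l3 s3 : ℤ} (h : Sur ang l1 s1 l2 s2 l3 s3) (a1 : s1 < l1 + N) (a2 : s2 < l2 + N)
    (a3 : s3 < l3 + N) (x : ℤ) (h1 : C N l1 s1 x) (h2 : C N l2 s2 x) (h3 : C N l3 s3 x) :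
    False := by
  obtain ⟨j1, p1, q1⟩ := h1
  obtain ⟨j2, p2, q2⟩ := h2
  obtain ⟨j3, p3, q3⟩ := h3
  have e12 : j2 - j1 = 0 := L1 hmono hang a1 a2 h.m12 h.g12 p1 q1
    (by rw [show x + 2 * N * j1 + 2 * N * (j2 - j1) = x + 2 * N * j2 by ring]; exact p2)
    (by rw [show x + 2 * N * j1 + 2 * N * (j2 - j1) = x + 2 * N * j2 by ring]; exact q2)
  have e23 : j3 - j2 = 0 := L1 hmono hang a2 a3 h.m23 h.g23 p2 q2
    (by rw [show x + 2 * N * j2 + 2 * N * (j3 - j2) = x + 2 * N * j3 by ring]; exact p3)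
    (by rw [show x + 2 * N * j2 + 2 * N * (j3 - j2) = x + 2 * N * j3 by ring]; exact q3)
  have hr := h.rot hang
  have e31 : j1 + 1 - j3 = 0 := L1 hmono hang a3 (l' := l1 + 2 * N * 1) (s' := s1 + 2 * N * 1)
    (by linarith) hr.m23 hr.g23 p3 q3
    (by linarith [show x + 2 * N * j3 + 2 * N * (j1 + 1 - j3) = x + 2 * N * j1 + 2 * N * 1 by ring])
    (by linarith [show x + 2 * N * j3 + 2 * N * (j1 + 1 - j3) = x + 2 * N * j1 + 2 * N * 1 by ring])
  omega

/-- intersecting consecutive arcs: the lifts intersect -/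
theorem lift_inter (hmono : StrictMono ang) (hang : ∀ k, ang (k + N) = ang k + Real.pi)
    {l1 s1 l2 s2 : ℤ} (a1 : s1 < l1 + N) (a2 : s2 < l2 + N)
    (m : mid ang l1 s1 ≤ mid ang l2 s2) (m' : mid ang l2 s2 ≤ mid ang l1 s1 + Real.pi)
    {x : ℤ} (h1 : C N l1 s1 x) (h2 : C N l2 s2 x) :
    ∃ j : ℤ, (l1 ≤ x + 2 * N * j ∧ x + 2 * N * j ≤ s1) ∧ l2 ≤ x + 2 * N * j ∧ x + 2 * N * j ≤ s2 := by
  obtain ⟨j1, p1, q1⟩ := h1
  obtain ⟨j2, p2, q2⟩ := h2
  have e12 : j2 - j1 = 0 := L1 hmono hang a1 a2 m m' p1 q1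
    (by rw [show x + 2 * N * j1 + 2 * N * (j2 - j1) = x + 2 * N * j2 by ring]; exact p2)
    (by rw [show x + 2 * N * j1 + 2 * N * (j2 - j1) = x + 2 * N * j2 by ring]; exact q2)
  have : j2 = j1 := by omega
  subst this
  exact ⟨j2, ⟨p1, q1⟩, p2, q2⟩

/-- three violators of the same type -/
theorem caseAAA (hN : 0 < N) (hmono : StrictMono ang) (hang : ∀ k, ang (k + N) = ang k + Real.pi)
    (hb : Bal col S r) {A : Fin 3} {l1 s1 l2 s2 l3 s3 : ℤ} (h : Sur ang l1 s1 l2 s2 l3 s3)
    (h1 : V N col pos S r A l1 s1) (h2 : V N col pos S r A l2 s2)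
    (h3 : V N col pos S r A l3 s3) : False := by
  obtain ⟨x12, c1, c2⟩ := P1 hb h1 h2
  obtain ⟨j12, ⟨p1, p2⟩, p3, p4⟩ := lift_inter hmono hang h1.2.1 h2.2.1 h.m12 h.g12 c1 c2
  obtain ⟨x23, c3, c4⟩ := P1 hb h2 h3
  obtain ⟨j23, ⟨q1, q2⟩, q3, q4⟩ := lift_inter hmono hang h2.2.1 h3.2.1 h.m23 h.g23 c3 c4
  have h1' := h1.shift 1
  have hr := h.rot hang
  obtain ⟨x31, c5, c6⟩ := P1 hb h3 h1'
  obtain ⟨j31, ⟨r1, r2⟩, r3, r4⟩ := lift_inter hmono hang h3.2.1 h1'.2.1 hr.m23 hr.g23 c5 c6
  have hcov : ∀ x, C N l1 s1 x ∨ C N l2 s2 x ∨ C N l3 s3 x := by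
    intro x
    have hN2 : (0 : ℤ) < 2 * N := by linarith
    let y := (x - l1) % (2 * N) + l1
    have hy0 : 0 ≤ (x - l1) % (2 * N) := Int.emod_nonneg _ (by omega)
    have hy1 : (x - l1) % (2 * N) < 2 * N := Int.emod_lt_of_pos _ hN2
    have hy2 : x + 2 * N * (-((x - l1) / (2 * N))) = y := by
      have := Int.emod_add_mul_ediv (x - l1) (2 * N)
      simp only [y]
      linarith
    by_cases a : y ≤ s1
    · left
      exact ⟨_, by rw [hy2]; simp only [y]; linarith, by rw [hy2]; exact a⟩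
    · right
      by_cases b : y ≤ s2
      · left
        exact ⟨_, by rw [hy2]; linarith, by rw [hy2]; exact b⟩
      · right
        refine ⟨_, by rw [hy2]; linarith, ?_⟩
        rw [hy2]
        simp only [y]
        linarith
  have hc := count hb (fun e => g N A l1 s1 (col e) (pos e) + g N A l2 s2 (col e) (pos e) +
    g N A l3 s3 (col e) (pos e)) (fun k => if k = A then -1 else 2) ?_
  · rw [sum3', sum_add_distrib, sum_add_distrib] at hc
    have := h1.2.2
    have := h2.2.2
    have := h3.2.2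
    linarith
  · intro e _
    cases pos e with
    | none => simp only [g]; split_ifs <;> norm_num
    | some x =>
      simp only [g]
      by_cases hk : col e = A
      · simp only [hk, if_true]
        have := hcov (x + N)
        split_ifs <;> first | (norm_num; done) | (exfalso; tauto)
      · simp only [hk, if_false]
        have := no_common hmono hang h h1.2.1 h2.2.1 h3.2.1 x
        split_ifs <;> first | (norm_num; done) | (exfalso; tauto)

/-- non-nested arcs are ordered by their mids -/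
theorem order (hmono : StrictMono ang) {l s l' s' : ℤ} (hm : mid ang l s ≤ mid ang l' s')
    (n1 : ¬ (l ≤ l' ∧ s' ≤ s)) (n2 : ¬ (l' ≤ l ∧ s ≤ s')) : l < l' ∧ s < s' := by
  by_contra hcon
  have h : l' < l ∧ s' < s := by omega
  have a1 := hmono h.1
  have a2 := hmono h.2
  unfold mid at hm
  linarith

theorem caseAAB (hN : 0 < N) (hmono : StrictMono ang) (hang : ∀ k, ang (k + N) = ang k + Real.pi)
    (hb : Bal col S r) {A B : Fin 3} (hAB : A ≠ B) {l1 s1 l2 s2 l3 s3 : ℤ}
    (h : Sur ang l1 s1 l2 s2 l3 s3)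
    (h1 : V N col pos S r A l1 s1) (h2 : V N col pos S r A l2 s2)
    (h3 : V N col pos S r B l3 s3) : False := by
  obtain ⟨x12, c1, c2⟩ := P1 hb h1 h2
  obtain ⟨j12, ⟨p1, p2⟩, p3, p4⟩ := lift_inter hmono hang h1.2.1 h2.2.1 h.m12 h.g12 c1 c2
  obtain ⟨n1, n2⟩ := nonnest hN hb hAB h1 h3
  obtain ⟨n3, n4⟩ := nonnest hN hb hAB h2 h3
  have hmJ := mid_sub hang l3 s3
  obtain ⟨o1, o2⟩ := order hmono (l := l1) (s := s1) (l' := l3 - N) (s' := s3 - N)
    (by rw [hmJ]; linarith [h.g31]) n1 n2
  obtain ⟨o3, o4⟩ := order hmono (l := l3 - N) (s := s3 - N) (l' := l2) (s' := s2)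
    (by rw [hmJ]; linarith [h.g23]) (by tauto) (by tauto)
  -- J ⊆ K1 ∪ K2
  have f1 : ∀ x, C N l3 s3 x → C N l1 s1 (x + N) ∨ C N l2 s2 (x + N) := by
    rintro x ⟨j, a, b⟩
    by_cases hx : x + 2 * N * j - N ≤ s1
    · left
      exact ⟨j - 1, by linarith, by linarith⟩
    · right
      exact ⟨j - 1, by linarith, by linarith⟩
  -- K1 ∩ K2 ⊆ J
  have f2 : ∀ x, C N l1 s1 x → C N l2 s2 x → C N l3 s3 (x + N) := by
    intro x a b
    obtain ⟨j, ⟨a1, a2⟩, a3, a4⟩ := lift_inter hmono hang h1.2.1 h2.2.1 h.m12 h.g12 a b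
    exact ⟨j, by linarith, by linarith⟩
  have hc := count hb (fun e => g N A l1 s1 (col e) (pos e) + g N A l2 s2 (col e) (pos e) +
    g N B l3 s3 (col e) (pos e)) (fun k => if k = A then 0 else if k = B then 1 else 2) ?_
  · rw [sum3 A B hAB, sum_add_distrib, sum_add_distrib] at hc
    have := h1.2.2
    have := h2.2.2
    have := h3.2.2
    linarith
  · intro e _
    cases pos e with
    | none => simp only [g]; split_ifs <;> norm_num
    | some x =>
      simp only [g]
      by_cases hk : col e = A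
      · simp only [hk, hAB, if_true, if_false]
        have := f1 x
        split_ifs <;> first | (norm_num; done) | (exfalso; tauto)
      · by_cases hk' : col e = B
        · simp only [hk', hAB.symm, if_true, if_false]
          have := f2 x
          split_ifs <;> first | (norm_num; done) | (exfalso; tauto)
        · simp only [hk, hk', if_false]
          have := no_common hmono hang h h1.2.1 h2.2.1 h3.2.1 x
          split_ifs <;> first | (norm_num; done) | (exfalso; tauto)

/-- the claim `K2 ∩ K3 ⊆ -K1` for three different types -/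
theorem abc_claim (hN : 0 < N) (hmono : StrictMono ang)
    (hang : ∀ k, ang (k + N) = ang k + Real.pi)
    (hb : Bal col S r) {A B D : Fin 3} (hAB : A ≠ B) (hAD : A ≠ D) {l1 s1 l2 s2 l3 s3 : ℤ}
    (h : Sur ang l1 s1 l2 s2 l3 s3)
    (h1 : V N col pos S r A l1 s1) (h2 : V N col pos S r B l2 s2)
    (h3 : V N col pos S r D l3 s3) (x : ℤ) (c2 : C N l2 s2 x) (c3 : C N l3 s3 x) :
    C N l1 s1 (x + N) := by
  have h1' := h1.shift 1
  have e1 : mid ang (l1 + 2 * N * 1 - N) (s1 + 2 * N * 1 - N) = mid ang l1 s1 + Real.pi := by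
    rw [mid_sub hang, mid_shift hang]
    push_cast
    ring
  obtain ⟨n1, n2⟩ := nonnest hN hb hAB.symm h2 h1'
  obtain ⟨n3, n4⟩ := nonnest hN hb hAD.symm h3 h1'
  obtain ⟨o1, o2⟩ := order hmono (l := l2) (s := s2) (l' := l1 + 2 * N * 1 - N)
    (s' := s1 + 2 * N * 1 - N) (by rw [e1]; exact h.g12) n1 n2
  obtain ⟨o3, o4⟩ := order hmono (l := l1 + 2 * N * 1 - N)
    (s := s1 + 2 * N * 1 - N) (l' := l3) (s' := s3) (by rw [e1]; linarith [h.g31])
    (by tauto) (by tauto)
  obtain ⟨j, ⟨a1, a2⟩, a3, a4⟩ := lift_inter hmono hang h2.2.1 h3.2.1 h.m23 h.g23 c2 c3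
  refine ⟨j - 1, ?_, ?_⟩ <;> linarith

theorem caseABC (hN : 0 < N) (hmono : StrictMono ang) (hang : ∀ k, ang (k + N) = ang k + Real.pi)
    (hb : Bal col S r) {A B D : Fin 3} (hAB : A ≠ B) (hAD : A ≠ D) (hBD : B ≠ D)
    {l1 s1 l2 s2 l3 s3 : ℤ} (h : Sur ang l1 s1 l2 s2 l3 s3)
    (h1 : V N col pos S r A l1 s1) (h2 : V N col pos S r B l2 s2)
    (h3 : V N col pos S r D l3 s3) : False := by
  have f1 := abc_claim hN hmono hang hb hAB hAD h h1 h2 h3
  have h' := h.rot hang
  have h'' := h'.rot hang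
  have h1' := h1.shift 1
  have h2' := h2.shift 1
  have f2 := abc_claim hN hmono hang hb hBD hAB.symm h' h2 h3 h1'
  have f3 := abc_claim hN hmono hang hb hAD.symm hBD.symm h'' h3 h1' h2'
  simp only [C_shift] at f2 f3
  have hc := count hb (fun e => g N A l1 s1 (col e) (pos e) + g N B l2 s2 (col e) (pos e) +
    g N D l3 s3 (col e) (pos e)) (fun _ => 1) ?_
  · rw [sum_add_distrib, sum_add_distrib] at hc
    have := h1.2.2
    have := h2.2.2
    have := h3.2.2
    linarith
  · intro e _
    have hcol : col e = A ∨ col e = B ∨ col e = D := by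
      generalize col e = k
      revert hAB hAD hBD
      clear h h1 h2 h3 f1 h' h'' h1' h2' f2 f3
      fin_cases A <;> fin_cases B <;> fin_cases D <;> fin_cases k <;> simp
    cases pos e with
    | none => simp only [g]; split_ifs <;> norm_num
    | some x =>
      simp only [g]
      have g1 := f1 x
      have g2 := f2 x
      have g3 := f3 x
      rcases hcol with hk | hk | hk
      · simp only [hk, hAB, hAD, if_true, if_false]
        split_ifs <;> first | (norm_num; done) | (exfalso; tauto)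
      · simp only [hk, hAB.symm, hBD, if_true, if_false]
        split_ifs <;> first | (norm_num; done) | (exfalso; tauto)
      · simp only [hk, hAD.symm, hBD.symm, if_true, if_false]
        split_ifs <;> first | (norm_num; done) | (exfalso; tauto)

theorem triple (hN : 0 < N) (hmono : StrictMono ang) (hang : ∀ k, ang (k + N) = ang k + Real.pi)
    (hb : Bal col S r) {c1 c2 c3 : Fin 3} {l1 s1 l2 s2 l3 s3 : ℤ}
    (h : Sur ang l1 s1 l2 s2 l3 s3)
    (h1 : V N col pos S r c1 l1 s1) (h2 : V N col pos S r c2 l2 s2)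
    (h3 : V N col pos S r c3 l3 s3) : False := by
  have h' := h.rot hang
  have h'' := h'.rot hang
  have h1' := h1.shift 1
  have h2' := h2.shift 1
  by_cases e12 : c1 = c2
  · subst e12
    by_cases e13 : c1 = c3
    · subst e13
      exact caseAAA hN hmono hang hb h h1 h2 h3
    · exact caseAAB hN hmono hang hb e13 h h1 h2 h3
  · by_cases e23 : c2 = c3
    · subst e23
      exact caseAAB hN hmono hang hb (Ne.symm e12) h' h2 h3 h1'
    · by_cases e13 : c1 = c3
      · subst e13
        exact caseAAB hN hmono hang hb e12 h'' h3 h1' h2'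
      · exact caseABC hN hmono hang hb e12 e13 e23 h h1 h2 h3

end Angle

end Key

open Key in
theorem key {E : Type*} [DecidableEq E] (N : ℤ) (hN : 0 < N) (col : E → Fin 3)
    (pos : E → Option ℤ) (S : Finset E) (r : ℕ) (hR : InRange N pos) (hb : Bal col S r)
    (ang : ℤ → ℝ) (hmono : StrictMono ang) (hang : ∀ k, ang (k + N) = ang k + Real.pi)
    (I : Finset (Fin 3 × ℤ × ℤ))
    (hI : ∀ t ∈ I, Arc N t.2.1 t.2.2 ∧ (r : ℤ) + 1 ≤ sig N col pos S t.1 t.2.1 t.2.2)
    (hne : I.Nonempty) (μ : Fin 3 × ℤ × ℤ → ℝ) (hμ : ∀ t ∈ I, 0 < μ t)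
    (hc : ∑ t ∈ I, μ t * (Real.cos (ang t.2.1) + Real.cos (ang t.2.2)) = 0)
    (hs : ∑ t ∈ I, μ t * (Real.sin (ang t.2.1) + Real.sin (ang t.2.2)) = 0) : False := by
  have hpi := Real.pi_pos
  have hV : ∀ t ∈ I, V N col pos S r t.1 t.2.1 t.2.2 := by
    intro t ht
    obtain ⟨hA, hσ⟩ := hI t ht
    refine ⟨hA.2.2.1, hA.2.2.2, hσ.trans (le_of_eq ?_)⟩
    unfold sig
    refine sum_congr rfl fun e _ => ?_
    exact ctr_eq hN hA _ _ _ (hR e)
  -- the mid angles
  let M : Fin 3 × ℤ × ℤ → ℝ := fun t => mid ang t.2.1 t.2.2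
  obtain ⟨t1, ht1⟩ := hne
  have hp : (0 : ℝ) < 2 * Real.pi := by positivity
  let kk : Fin 3 × ℤ × ℤ → ℤ := fun t => - toIcoDiv hp (M t1) (M t)
  let L : Fin 3 × ℤ × ℤ → ℝ := fun t => M t + 2 * Real.pi * kk t
  have hL : ∀ t, M t1 ≤ L t ∧ L t < M t1 + 2 * Real.pi := by
    intro t
    have h1 := sub_toIcoDiv_zsmul_mem_Ico hp (M t1) (M t)
    have h2 : M t - toIcoDiv hp (M t1) (M t) • (2 * Real.pi) = L t := by
      simp only [L, kk, zsmul_eq_mul]
      push_cast
      ring
    rw [h2] at h1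
    exact h1
  have hL1 : L t1 = M t1 := by
    obtain ⟨a, b⟩ := hL t1
    have hk : kk t1 = 0 := by
      simp only [L] at a b
      have c1 : -1 < (kk t1 : ℝ) := by nlinarith
      have c2 : (kk t1 : ℝ) < 1 := by nlinarith
      have c3 : -1 < kk t1 := by exact_mod_cast c1
      have c4 : kk t1 < 1 := by exact_mod_cast c2
      omega
    simp only [L, hk]
    simp
  have hVk : ∀ t ∈ I, ∀ j : ℤ, V N col pos S r t.1 (t.2.1 + 2 * N * j) (t.2.2 + 2 * N * j) :=
    fun t ht j => (hV t ht).shift j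
  have hMk : ∀ t (j : ℤ), mid ang (t.2.1 + 2 * N * j) (t.2.2 + 2 * N * j) =
      M t + 2 * Real.pi * j := fun t j => mid_shift hang _ _ _
  -- the second violator
  obtain ⟨t2, ht2, hmax⟩ := Finset.exists_max_image (I.filter fun t => L t ≤ M t1 + Real.pi) L
    ⟨t1, mem_filter.2 ⟨ht1, by rw [hL1]; linarith⟩⟩
  rw [mem_filter] at ht2
  obtain ⟨ht2, ht2'⟩ := ht2
  -- the third violator
  obtain ⟨t3, ht3, j3, hm3, hm3', hmin⟩ : ∃ t3 ∈ I, ∃ j : ℤ,
      M t1 + Real.pi ≤ M t3 + 2 * Real.pi * j ∧ M t3 + 2 * Real.pi * j ≤ M t1 + 2 * Real.pi ∧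
      ∀ t ∈ I, M t1 + Real.pi ≤ L t → M t3 + 2 * Real.pi * j ≤ L t := by
    by_cases hem : (I.filter fun t => M t1 + Real.pi ≤ L t).Nonempty
    · obtain ⟨t3, ht3, hmin⟩ := Finset.exists_min_image _ L hem
      rw [mem_filter] at ht3
      refine ⟨t3, ht3.1, kk t3, ht3.2, (hL t3).2.le, ?_⟩
      intro t ht ht'
      exact hmin t (mem_filter.2 ⟨ht, ht'⟩)
    · refine ⟨t1, ht1, 1, by push_cast; linarith, by push_cast; linarith, ?_⟩
      intro t ht ht'
      exact absurd ⟨t, mem_filter.2 ⟨ht, ht'⟩⟩ hem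
  by_cases hgap : M t3 + 2 * Real.pi * j3 ≤ L t2 + Real.pi
  · refine triple hN hmono hang hb (l1 := t1.2.1) (s1 := t1.2.2)
      (l2 := t2.2.1 + 2 * N * kk t2) (s2 := t2.2.2 + 2 * N * kk t2)
      (l3 := t3.2.1 + 2 * N * j3) (s3 := t3.2.2 + 2 * N * j3) ?_ (hV t1 ht1) (hVk t2 ht2 _)
      (hVk t3 ht3 _)
    refine ⟨?_, ?_, ?_, ?_, ?_, ?_⟩
    · rw [hMk]; exact (hL t2).1
    · rw [hMk, hMk]; exact ht2'.trans hm3
    · rw [hMk]; exact hm3'
    · rw [hMk]; exact ht2'
    · rw [hMk, hMk]; exact hgap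
    · rw [hMk]; linarith
  · -- all directions in an open half plane
    push Not at hgap
    let θ : ℝ := (L t2 + (M t3 + 2 * Real.pi * j3 - 2 * Real.pi)) / 2
    have hcos : ∀ t ∈ I, 0 < Real.cos (M t - θ) := by
      intro t ht
      rcases le_total (L t) (M t1 + Real.pi) with h | h
      · have h1 := hmax t (mem_filter.2 ⟨ht, h⟩)
        have h2 := (hL t).1
        have e : Real.cos (M t - θ) = Real.cos (L t - θ) := by
          have : L t - θ = (M t - θ) + (kk t) * (2 * Real.pi) := by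
            simp only [L]; ring
          rw [this, Real.cos_add_int_mul_two_pi]
        rw [e]
        apply Real.cos_pos_of_mem_Ioo
        constructor
        · simp only [θ]; linarith
        · simp only [θ]; linarith
      · have h1 := hmin t ht h
        have h2 := (hL t).2
        have e : Real.cos (M t - θ) = Real.cos (L t - 2 * Real.pi - θ) := by
          have : L t - 2 * Real.pi - θ = (M t - θ) + ((kk t - 1 : ℤ) : ℝ) * (2 * Real.pi) := by
            simp only [L]; push_cast; ring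
          rw [this, Real.cos_add_int_mul_two_pi]
        rw [e]
        apply Real.cos_pos_of_mem_Ioo
        have h3 := (hL t2).1
        constructor
        · simp only [θ]; linarith
        · simp only [θ]; linarith
    have hsum : ∑ t ∈ I, μ t * (2 * Real.cos ((ang t.2.1 - ang t.2.2) / 2) * Real.cos (M t - θ)) =
        0 := by
      have e : ∀ t ∈ I, μ t * (2 * Real.cos ((ang t.2.1 - ang t.2.2) / 2) * Real.cos (M t - θ)) =
          Real.cos θ * (μ t * (Real.cos (ang t.2.1) + Real.cos (ang t.2.2))) +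
          Real.sin θ * (μ t * (Real.sin (ang t.2.1) + Real.sin (ang t.2.2))) := by
        intro t _
        rw [Real.cos_add_cos, Real.sin_add_sin, Real.cos_sub]
        simp only [M, mid]
        ring
      rw [sum_congr rfl e, sum_add_distrib, ← mul_sum, ← mul_sum, hc, hs]
      ring
    have hpos : 0 < ∑ t ∈ I, μ t * (2 * Real.cos ((ang t.2.1 - ang t.2.2) / 2) *
        Real.cos (M t - θ)) := by
      apply sum_pos
      · intro t ht
        have h1 := hcos t ht
        have h2 := hμ t ht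
        have h3 : 0 < Real.cos ((ang t.2.1 - ang t.2.2) / 2) := by
          obtain ⟨a, b, -⟩ := hV t ht
          have a1 := hmono.monotone a
          have a2 := hmono b
          rw [hang] at a2
          apply Real.cos_pos_of_mem_Ioo
          constructor <;> linarith
        positivity
      · exact ⟨t1, ht1⟩
    rw [hsum] at hpos
    exact lt_irrefl _ hpos

end RD
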